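import Mathlib
import Pool.Agent.W71.TwoDeg

set_option autoImplicit false

namespace Pool.Agent.Results.MP_b52a92_nt.TwoDegrees

open Polynomial

/-- The naive height of an integer polynomial: the maximum absolute value of its coefficients. -/
def height (P : ℤ[X]) : ℕ := P.support.sup (fun i => (P.coeff i).natAbs)

/-- `P` is the minimal polynomial over the integers of the real number `α`: the primitive integer
polynomial of least positive degree with positive leading coefficient that vanishes at `α`. -/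
def IsMinimalPolynomial (P : ℤ[X]) (α : ℝ) : Prop :=
  P.IsPrimitive ∧ 0 < P.leadingCoeff ∧ 0 < P.natDegree ∧ aeval α P = 0 ∧
    ∀ Q : ℤ[X], Q ≠ 0 → aeval α Q = 0 → P.natDegree ≤ Q.natDegree

/-- `𝒦_n^*(τ)`: the real `ξ` with `|ξ - α| < H(α) ^ (-τ (n + 1))` for infinitely many real
algebraic numbers `α` of degree at most `n`. -/
def K (n : ℕ) (τ : ℝ) : Set ℝ :=
  {ξ : ℝ | {α : ℝ | ∃ P : ℤ[X], IsMinimalPolynomial P α ∧ P.natDegree ≤ n ∧
    |ξ - α| < (height P : ℝ) ^ (-(τ * (n + 1)))}.Infinite}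

/-- The exact order of approximation of `ξ` in degree at most `n`, in the extended reals: the
supremum of the `σ ≥ 1` with `ξ ∈ 𝒦_n^*(σ)`. -/
noncomputable def exactOrder (n : ℕ) (ξ : ℝ) : EReal :=
  sSup {W : EReal | ∃ σ : ℝ, 1 ≤ σ ∧ W = (σ : EReal) ∧ ξ ∈ K n σ}

/-- The same supremum taken over all real `σ`. -/
noncomputable def exactOrderAll (n : ℕ) (ξ : ℝ) : EReal :=
  sSup {W : EReal | ∃ σ : ℝ, W = (σ : EReal) ∧ ξ ∈ K n σ}

/-- `𝒲_n^*(τ)`: the real numbers of exact order `τ` in degree at most `n`. -/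
def W (n : ℕ) (τ : ℝ) : Set ℝ := {ξ | exactOrder n ξ = (τ : EReal)}

/-- The variant of `𝒲_n^*(τ)` with the supremum over all real `σ`. -/
def WAll (n : ℕ) (τ : ℝ) : Set ℝ := {ξ | exactOrderAll n ξ = (τ : EReal)}

lemma order_eq (n : ℕ) (ξ τ w : ℝ) (hτ : 1 ≤ τ) (hw : w = τ * (n + 1) - 1)
    (h1 : ∀ v : ℝ, w < v → {α : ℝ | ∃ P : ℤ[X], Pool.Agent.W71.MinPolyZ P α ∧ P.natDegree ≤ n ∧
      |ξ - α| ≤ (Pool.Agent.W71.hgt P : ℝ) ^ (-v - 1)}.Finite)
    (h2 : {α : ℝ | ∃ P : ℤ[X], Pool.Agent.W71.MinPolyZ P α ∧ P.natDegree ≤ n ∧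
      |ξ - α| < (Pool.Agent.W71.hgt P : ℝ) ^ (-(1 + w))}.Infinite) :
    ξ ∈ W n τ ∧ ξ ∈ WAll n τ := by
  have hn : (0 : ℝ) < (n : ℝ) + 1 := by positivity
  have hmem : ξ ∈ K n τ := by
    have e1 : -(1 + w) = -(τ * (n + 1)) := by rw [hw]; ring
    rw [e1] at h2
    exact h2
  have hup : ∀ σ : ℝ, ξ ∈ K n σ → σ ≤ τ := by
    intro σ hσ
    by_contra hcon
    push Not at hcon
    apply hσ
    apply (h1 (σ * (n + 1) - 1) (by rw [hw]; nlinarith)).subset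
    rintro α ⟨P, hP, hdeg, hlt⟩
    refine ⟨P, hP, hdeg, ?_⟩
    have e1 : -(σ * ((n : ℝ) + 1) - 1) - 1 = -(σ * (n + 1)) := by ring
    rw [e1]
    exact hlt.le
  constructor
  · apply le_antisymm
    · apply sSup_le
      rintro x ⟨σ, -, rfl, hσ⟩
      exact_mod_cast hup σ hσ
    · exact le_sSup ⟨τ, hτ, rfl, hmem⟩
  · apply le_antisymm
    · apply sSup_le
      rintro x ⟨σ, rfl, hσ⟩
      exact_mod_cast hup σ hσ
    · exact le_sSup ⟨τ, rfl, hmem⟩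

lemma K_transfer {n n' : ℕ} (h : n' ≤ n) (ξ σ : ℝ) (hξ : ξ ∈ K n' σ) :
    ξ ∈ K n (σ * (n' + 1) / (n + 1)) := by
  have hn : (0 : ℝ) < (n : ℝ) + 1 := by positivity
  refine Set.Infinite.mono ?_ hξ
  rintro α ⟨P, hP, hdeg, hlt⟩
  refine ⟨P, hP, hdeg.trans h, ?_⟩
  have e1 : σ * ((n' : ℝ) + 1) / (n + 1) * (n + 1) = σ * (n' + 1) := by field_simp
  rw [e1]
  exact hlt

/-- Let `n ≠ n'` be positive integers and `τ' > τ ≥ 1`. Then `𝒲_n^*(τ) ∩ 𝒲_{n'}^*(τ')` is non-empty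
if and only if `n < n'` or `τ' (n' + 1) ≤ τ (n + 1)`; the same holds for the variant in which the
supremum defining the exact order runs over all real `σ`. -/
theorem result : ∀ n n' : ℕ, 1 ≤ n → 1 ≤ n' → n ≠ n' → ∀ τ τ' : ℝ, 1 ≤ τ → τ < τ' →
    ((W n τ ∩ W n' τ').Nonempty ↔ (n < n' ∨ τ' * (n' + 1) ≤ τ * (n + 1))) ∧
    ((WAll n τ ∩ WAll n' τ').Nonempty ↔ (n < n' ∨ τ' * (n' + 1) ≤ τ * (n + 1))) := by
  intro n n' hn hn' hne τ τ' hτ hττ'
  have hn0 : (1 : ℝ) ≤ n := by exact_mod_cast hn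
  have hn0' : (1 : ℝ) ≤ n' := by exact_mod_cast hn'
  have hex : (n < n' ∨ τ' * (n' + 1) ≤ τ * (n + 1)) →
      ∃ ξ : ℝ, (ξ ∈ W n τ ∧ ξ ∈ WAll n τ) ∧ (ξ ∈ W n' τ' ∧ ξ ∈ WAll n' τ') := by
    intro h
    rcases lt_or_gt_of_ne hne with hlt | hgt
    · have h12 : (n : ℝ) < n' := by exact_mod_cast hlt
      obtain ⟨ξ, h1, h2, h3, h4⟩ := Pool.Agent.W71.two_deg n n' hn hlt (τ * (n + 1) - 1)
        (τ' * (n' + 1) - 1) (by nlinarith) (by nlinarith) (by nlinarith)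
      exact ⟨ξ, order_eq n ξ τ _ hτ rfl h1 h3, order_eq n' ξ τ' _ (by linarith) rfl h2 h4⟩
    · have h12 : (n' : ℝ) < n := by exact_mod_cast hgt
      have hle : τ' * (n' + 1) ≤ τ * (n + 1) := by
        rcases h with h | h
        · omega
        · exact h
      obtain ⟨ξ, h1, h2, h3, h4⟩ := Pool.Agent.W71.two_deg n' n hn' hgt (τ' * (n' + 1) - 1)
        (τ * (n + 1) - 1) (by nlinarith) (by nlinarith) (by linarith)
      exact ⟨ξ, order_eq n ξ τ _ hτ rfl h2 h4, order_eq n' ξ τ' _ (by linarith) rfl h1 h3⟩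
  have hn1 : (0 : ℝ) < (n : ℝ) + 1 := by positivity
  have hn1' : (0 : ℝ) < (n' : ℝ) + 1 := by positivity
  constructor
  · constructor
    · rintro ⟨ξ, h1, h2⟩
      by_contra hcon
      push Not at hcon
      obtain ⟨hc1, hc2⟩ := hcon
      have hs : ((τ * (n + 1) / (n' + 1) : ℝ) : EReal) < exactOrder n' ξ := by
        rw [show exactOrder n' ξ = (τ' : EReal) from h2]
        rw [EReal.coe_lt_coe_iff, div_lt_iff₀ hn1']
        exact hc2
      obtain ⟨x, ⟨σ, hσ1, rfl, hσ⟩, hlt⟩ := lt_sSup_iff.1 hs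
      rw [EReal.coe_lt_coe_iff, div_lt_iff₀ hn1'] at hlt
      have h3 : τ < σ * (n' + 1) / (n + 1) := by rw [lt_div_iff₀ hn1]; exact hlt
      have h4 : ((σ * (n' + 1) / (n + 1) : ℝ) : EReal) ≤ exactOrder n ξ :=
        le_sSup ⟨_, by linarith, rfl, K_transfer (by omega) ξ σ hσ⟩
      rw [show exactOrder n ξ = (τ : EReal) from h1, EReal.coe_le_coe_iff] at h4
      linarith
    · intro h
      obtain ⟨ξ, h1, h2⟩ := hex h
      exact ⟨ξ, h1.1, h2.1⟩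
  · constructor
    · rintro ⟨ξ, h1, h2⟩
      by_contra hcon
      push Not at hcon
      obtain ⟨hc1, hc2⟩ := hcon
      have hs : ((τ * (n + 1) / (n' + 1) : ℝ) : EReal) < exactOrderAll n' ξ := by
        rw [show exactOrderAll n' ξ = (τ' : EReal) from h2]
        rw [EReal.coe_lt_coe_iff, div_lt_iff₀ hn1']
        exact hc2
      obtain ⟨x, ⟨σ, rfl, hσ⟩, hlt⟩ := lt_sSup_iff.1 hs
      rw [EReal.coe_lt_coe_iff, div_lt_iff₀ hn1'] at hlt
      have h3 : τ < σ * (n' + 1) / (n + 1) := by rw [lt_div_iff₀ hn1]; exact hlt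
      have h4 : ((σ * (n' + 1) / (n + 1) : ℝ) : EReal) ≤ exactOrderAll n ξ :=
        le_sSup ⟨_, rfl, K_transfer (by omega) ξ σ hσ⟩
      rw [show exactOrderAll n ξ = (τ : EReal) from h1, EReal.coe_le_coe_iff] at h4
      linarith
    · intro h
      obtain ⟨ξ, h1, h2⟩ := hex h
      exact ⟨ξ, h1.2, h2.2⟩

end Pool.Agent.Results.MP_b52a92_nt.TwoDegrees
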